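import Pool.Agent.Lib.MP_1a91b9_ntT.DW.Cls

/-!
# The twists of `E` over the fields inside an extension of `K` of degree prime to six
-/

set_option autoImplicit false

namespace Pool.Agent.Lib.MP_1a91b9_ntT.DW

open NumberField IsDedekindDomain WeierstrassCurve Filter Topology LSeries
open Pool.Agent.Lib.MP_1a91b9_ntT.S4 Pool.Agent.Lib.MP_1a91b9_ntT.S7
open Pool.Agent.Lib.MP_1a91b9_ntT.S8 Pool.Agent.Lib.MP_1a91b9_nt Pool.Agent.Lib.MP_1a91b9_ntT.TW

universe u

/-- The L-series of `ψbar_F` has an entire continuation which does not vanish at `1`. -/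
def LGood (F : Type u) [Field F] [NumberField F] [Algebra K F] : Prop :=
  ∃ g : ℂ → ℂ, Differentiable ℂ g ∧ (∀ s : ℂ, 2 < s.re → g s = Lf (psibC F) s) ∧ g 1 ≠ 0

/-- from `2 < Re s` to `3/2 < Re s` -/
theorem half_Lf {F : Type u} [Field F] [NumberField F] [Algebra K F] {g : ℂ → ℂ}
    (hg : Differentiable ℂ g) (h2 : ∀ s : ℂ, 2 < s.re → g s = Lf (psibC F) s) :
    ∀ s : ℂ, 3 / 2 < s.re → g s = Lf (psibC F) s := by
  have hq := hasSum_coefI_of_le (psibC F) (psibC_one F) (psibC_mul F) norm_psibC_le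
  set b : ℕ → ℂ := coefI (psibC F) with hb
  have hab : abscissaOfAbsConv b ≤ ((3 / 2 : ℝ) : EReal) := by
    refine LSeries.abscissaOfAbsConv_le_of_forall_lt_LSeriesSummable fun y hy => ?_
    exact (hq y (by simpa using hy)).LSeriesSummable
  have hL : AnalyticOnNhd ℂ (LSeries b) {s : ℂ | 3 / 2 < s.re} := by
    refine (LSeries_analyticOnNhd b).mono fun s hs => ?_
    exact hab.trans_lt (by exact_mod_cast hs)
  have hG : AnalyticOnNhd ℂ g {s : ℂ | 3 / 2 < s.re} := fun s _ => hg.analyticAt s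
  have hc : IsPreconnected {s : ℂ | 3 / 2 < s.re} := (convex_halfSpace_re_gt _).isPreconnected
  have h3 : (3 : ℂ) ∈ {s : ℂ | 3 / 2 < s.re} := by norm_num
  have hev : g =ᶠ[𝓝 (3 : ℂ)] LSeries b := by
    have ho : IsOpen {s : ℂ | 2 < s.re} := isOpen_lt continuous_const Complex.continuous_re
    filter_upwards [ho.mem_nhds (show (3 : ℂ) ∈ {s : ℂ | 2 < s.re} by norm_num)] with s hs
    have hs' : 2 < s.re := hs
    rw [h2 s hs', (hq s (by linarith)).LSeries_eq]
  intro s hs
  rw [hG.eqOn_of_preconnected_of_eventuallyEq hL hc h3 hev hs, (hq s hs).LSeries_eq]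

private theorem E_map_dw {F G : Type*} [Field F] [Field G] (f : F →+* G) :
    (E F).map f = E G := by
  ext <;> simp [E]

/-- The conclusion over a field containing `K`. -/
theorem concl_K {F : Type u} [Field F] [NumberField F] [Algebra K F] (h : NoCube3 F)
    (hg : LGood F) (hf : Finite (E F).toAffine.Point) (W : WeierstrassCurve F)
    (D : WeierstrassCurve.VariableChange F) (hD : D • W = E F) :
    (∃ g : ℂ → ℂ, Differentiable ℂ g ∧ (∀ s : ℂ, 3 / 2 < s.re → g s = W.LSeries s) ∧ g 1 ≠ 0) ∧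
      Finite W.toAffine.Point := by
  obtain ⟨L, hL, hL2, hne⟩ := hg
  have hL1 := half_Lf hL hL2
  refine ⟨⟨fun s => (starRingEnd ℂ) (L ((starRingEnd ℂ) s)) * L s,
    (differentiable_conj_conj hL).mul hL, fun s hs => ?_, ?_⟩, ?_⟩
  · change (starRingEnd ℂ) (L ((starRingEnd ℂ) s)) * L s = _
    rw [LSeries_iso h W D hD, (summable_32 h s hs).2, hL1 s hs,
      hL1 _ (by rw [Complex.conj_re]; exact hs), ← Lf_conj]
  · change (starRingEnd ℂ) (L ((starRingEnd ℂ) 1)) * L 1 ≠ 0
    rw [map_one]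
    exact mul_ne_zero ((map_ne_zero _).mpr hne) hne
  · rw [← hD] at hf
    exact Finite.of_surjective _ (vcFun_bijective W D).2

/-- The conclusion over a field `N` without `√-3`, `F = N(√-3)`. -/
theorem concl_N {N F : Type u} [Field N] [NumberField N] [Field F] [NumberField F]
    [Algebra N F] [Algebra K F] (hL : Module.finrank N F = 2)
    (hn : ∀ x : N, algebraMap N F x ≠ algebraMap K F om) (h : NoCube3 N)
    (hg : LGood F) (hf : Finite (E F).toAffine.Point) (W : WeierstrassCurve N)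
    (hW : (∃ D : WeierstrassCurve.VariableChange N, D • W = E N) ∨
      ∃ D : WeierstrassCurve.VariableChange N, D • W = tw (-3 : N)) :
    (∃ g : ℂ → ℂ, Differentiable ℂ g ∧ (∀ s : ℂ, 3 / 2 < s.re → g s = W.LSeries s) ∧ g 1 ≠ 0) ∧
      Finite W.toAffine.Point := by
  obtain ⟨L, hLd, hL2, hne⟩ := hg
  have hL1 := half_Lf hLd hL2
  have hz : (2 * algebraMap K F om + 1) ^ 2 = -3 := om_of_sqrt _ rfl
  rcases hW with ⟨D, hD⟩ | ⟨D, hD⟩
  · refine ⟨⟨L, hLd, fun s hs => ?_, hne⟩, ?_⟩
    · rw [hL1 s hs, LSeries_iso h W D hD, (summable_32B hL hn h s hs).2]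
    · refine finite_iso W (D.map (algebraMap N F)) ?_ hf
      rw [← E_map_dw (algebraMap N F), ← hD]
      exact (WeierstrassCurve.map_variableChange _ _ _)
  · refine ⟨⟨L, hLd, fun s hs => ?_, hne⟩, ?_⟩
    · rw [hL1 s hs, half_tw3 hL hn h W D hD s hs]
    · refine finite_iso_tw W D (-3) hD (by norm_num) (2 * algebraMap K F om + 1) ?_ hf
      rw [hz, map_neg, map_ofNat]

/-- What is needed about the field `N`. -/
def Dat (N : Type u) [Field N] [NumberField N] : Prop :=
  (∃ _ : Algebra K N, LGood N ∧ Finite (E N).toAffine.Point) ∨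
  ∃ (F : Type u) (_ : Field F) (_ : NumberField F) (_ : Algebra N F) (_ : Algebra K F),
    Module.finrank N F = 2 ∧ (∀ x : N, algebraMap N F x ≠ algebraMap K F om) ∧
      LGood F ∧ Finite (E F).toAffine.Point

/-- The theorem for the curves over `N` which become isomorphic to `E` inside an extension `M` of
`K` of degree prime to six. -/
theorem twist_main (N L M : Type u) [Field N] [NumberField N] [Field L] [NumberField L]
    [Field M] [NumberField M] [Algebra N L] [Algebra L M] [Algebra K M]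
    (h2 : ¬ 2 ∣ Module.finrank K M) (h3 : ¬ 3 ∣ Module.finrank K M) (hN : NoCube3 N)
    (hdat : Dat N) (W : WeierstrassCurve N) (C : WeierstrassCurve.VariableChange L)
    (hC : C • (W.baseChange L) = E L) :
    (∃ g : ℂ → ℂ, Differentiable ℂ g ∧ (∀ s : ℂ, 3 / 2 < s.re → g s = W.LSeries s) ∧ g 1 ≠ 0) ∧
      Finite W.toAffine.Point := by
  have hW := twist_class N L M h2 h3 W C hC
  rcases hdat with ⟨_, hg, hf⟩ | ⟨F, _, _, _, _, hL, hn, hg, hf⟩
  · rcases hW with ⟨D, hD⟩ | ⟨D, hD⟩
    · exact concl_K hN hg hf W D hD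
    · have hz : (2 * algebraMap K N om + 1) ^ 2 = -3 := om_of_sqrt _ rfl
      have hz0 : (2 * algebraMap K N om + 1 : N) ≠ 0 := by
        intro h0
        rw [h0, zero_pow two_ne_zero] at hz
        norm_num at hz
      obtain ⟨D', hD'⟩ := exists_iso_sq (2 * algebraMap K N om + 1 : N) hz0
      rw [hz] at hD'
      exact concl_K hN hg hf W (D' * D) (by rw [mul_smul, hD, hD'])
  · exact concl_N hL hn hN hg hf W hW

end Pool.Agent.Lib.MP_1a91b9_ntT.DW
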