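import Pool.Agent.Lib.MP_1a91b9_ntT.TW.Iso

/-!
# The curves which become isomorphic to `E` over an extension of odd degree prime to three,
up to `√-3`
-/

set_option autoImplicit false

namespace Pool.Agent.Lib.MP_1a91b9_ntT.DW

open NumberField IsDedekindDomain Polynomial WeierstrassCurve
open Pool.Agent.Lib.MP_1a91b9_ntT.S4 Pool.Agent.Lib.MP_1a91b9_ntT.S7
open Pool.Agent.Lib.MP_1a91b9_ntT.S8 Pool.Agent.Lib.MP_1a91b9_nt Pool.Agent.Lib.MP_1a91b9_ntT.TW

universe u

/-- a cube in an extension of degree prime to three is a cube -/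
theorem exists_cube3 {N L : Type*} [Field N] [Field L] [Algebra N L] [FiniteDimensional N L]
    (hk : ¬ 3 ∣ Module.finrank N L) (t : N) (c : L) (hc : c ^ 3 = algebraMap N L t) :
    ∃ d : N, d ^ 3 = t := by
  by_contra hcon
  push Not at hcon
  have hirr : Irreducible (X ^ 3 - C t : N[X]) :=
    X_pow_sub_C_irreducible_of_prime Nat.prime_three fun b hb => hcon b hb
  have hmin : minpoly N c = X ^ 3 - C t := by
    refine (minpoly.eq_of_irreducible_of_monic hirr ?_ (monic_X_pow_sub_C t (by norm_num))).symm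
    rw [map_sub, map_pow, aeval_X, aeval_C, hc, sub_self]
  have hdeg : (minpoly N c).natDegree = 3 := by rw [hmin, natDegree_X_pow_sub_C]
  have hint : IsIntegral N c := Algebra.IsIntegral.isIntegral c
  apply hk
  rw [← hdeg, ← IntermediateField.adjoin.finrank hint]
  exact ⟨_, (Module.finrank_mul_finrank N (IntermediateField.adjoin N {c}) L).symm⟩

/-- Curves which become isomorphic to `E` over `L`, of degree prime to three, are the twists by
elements of `N` which are squares in `L`. -/
theorem exists_tw3 {N L : Type*} [Field N] [CharZero N] [Field L] [CharZero L] [Algebra N L]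
    [FiniteDimensional N L] (hk : ¬ 3 ∣ Module.finrank N L)
    (W : WeierstrassCurve N) (C₀ : WeierstrassCurve.VariableChange L)
    (hC : C₀ • (W.baseChange L) = E L) :
    ∃ (d : N) (x : L) (D : WeierstrassCurve.VariableChange N), d ≠ 0 ∧
      x ^ 2 = algebraMap N L d ∧ D • W = tw d := by
  obtain ⟨D, hD⟩ := exists_short W
  -- the coefficient `A` is zero
  have hc4L : (W.baseChange L).c₄ = 0 := by
    have h1 := congrArg WeierstrassCurve.c₄ hC
    rw [WeierstrassCurve.variableChange_c₄] at h1
    have h2 : (E L).c₄ = 0 := by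
      simp only [E, WeierstrassCurve.c₄, WeierstrassCurve.b₂, WeierstrassCurve.b₄]
      ring
    rw [h2] at h1
    rcases mul_eq_zero.1 h1 with h | h
    · exact absurd h (pow_ne_zero 4 (Units.ne_zero _))
    · exact h
  have hc4 : W.c₄ = 0 := by
    apply (algebraMap N L).injective
    rw [map_zero, ← hc4L]
    exact (WeierstrassCurve.map_c₄ _ _).symm
  rw [hc4, neg_zero, zero_div] at hD
  generalize hBdef : -W.c₆ / 864 = B at hD
  -- a variable change over `L`
  obtain ⟨C₁, hC₁⟩ := exists_iso_sq (1 : L) one_ne_zero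
  rw [one_pow] at hC₁
  have hDL : (D.map (algebraMap N L)) • (W.baseChange L) =
      (⟨0, 0, 0, 0, algebraMap N L B⟩ : WeierstrassCurve L) := by
    have h1 : (D.map (algebraMap N L)) • (W.baseChange L) = (D • W).map (algebraMap N L) :=
      (WeierstrassCurve.map_variableChange _ _ _)
    rw [h1, hD]
    ext <;> simp
  obtain ⟨C₂, hC₂⟩ : ∃ C₂ : WeierstrassCurve.VariableChange L,
      C₂ • (⟨0, 0, 0, 0, algebraMap N L B⟩ : WeierstrassCurve L) = tw 1 := by
    refine ⟨C₁⁻¹ * C₀ * (D.map (algebraMap N L))⁻¹, ?_⟩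
    rw [← hDL, mul_smul, mul_smul, inv_smul_smul, hC, ← hC₁, inv_smul_smul]
  have hu : (C₂.u : L) ≠ 0 := C₂.u.ne_zero
  have hui : ((C₂.u⁻¹ : Lˣ) : L) = (C₂.u : L)⁻¹ := by simp
  have e1 := congrArg WeierstrassCurve.a₁ hC₂
  rw [WeierstrassCurve.variableChange_a₁, hui] at e1
  simp only [tw] at e1
  have hs : C₂.s = 0 := by
    have h1 : (C₂.u : L)⁻¹ * (0 + 2 * C₂.s) = 0 := e1
    rcases mul_eq_zero.1 h1 with h | h
    · exact absurd h (inv_ne_zero hu)
    · have h2 : (2 : L) * C₂.s = 0 := by linear_combination h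
      rcases mul_eq_zero.1 h2 with h | h
      · exact absurd h two_ne_zero
      · exact h
  have e2 := congrArg WeierstrassCurve.a₂ hC₂
  rw [WeierstrassCurve.variableChange_a₂, hui, hs] at e2
  simp only [tw] at e2
  have hr : C₂.r = 0 := by
    rcases mul_eq_zero.1 e2 with h | h
    · exact absurd h (pow_ne_zero 2 (inv_ne_zero hu))
    · have h2 : (3 : L) * C₂.r = 0 := by linear_combination h
      rcases mul_eq_zero.1 h2 with h | h
      · norm_num at h
      · exact h
  have e3 := congrArg WeierstrassCurve.a₃ hC₂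
  rw [WeierstrassCurve.variableChange_a₃, hui, hr] at e3
  simp only [tw] at e3
  have ht : C₂.t = 0 := by
    rcases mul_eq_zero.1 e3 with h | h
    · exact absurd h (pow_ne_zero 3 (inv_ne_zero hu))
    · have h2 : (2 : L) * C₂.t = 0 := by linear_combination h
      rcases mul_eq_zero.1 h2 with h | h
      · exact absurd h two_ne_zero
      · exact h
  have e6 := congrArg WeierstrassCurve.a₆ hC₂
  rw [WeierstrassCurve.variableChange_a₆, hui, hr, ht] at e6
  simp only [tw] at e6
  set u : L := (C₂.u : L) with hudef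
  have hB : algebraMap N L B = 16 * u ^ 6 := by
    have h1 : u⁻¹ ^ 6 * algebraMap N L B = 16 := by linear_combination e6
    have h2 : algebraMap N L B = u ^ 6 * (u⁻¹ ^ 6 * algebraMap N L B) := by
      rw [← mul_assoc, ← mul_pow, mul_inv_cancel₀ hu, one_pow, one_mul]
    rw [h2, h1, mul_comm]
  have h16 : (16 : N) ≠ 0 := by norm_num
  obtain ⟨d, hd⟩ := exists_cube3 hk (B / 16) (u ^ 2) (by
    rw [map_div₀, hB, map_ofNat]
    field_simp)
  have hd3 : algebraMap N L d ^ 3 = u ^ 6 := by
    rw [← map_pow, hd, map_div₀, hB, map_ofNat]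
    field_simp
  have hd0 : d ≠ 0 := by
    rintro rfl
    rw [map_zero, zero_pow three_ne_zero] at hd3
    exact pow_ne_zero 6 hu hd3.symm
  have hdL : algebraMap N L d ≠ 0 := by
    rw [Ne, map_eq_zero]; exact hd0
  refine ⟨d, (algebraMap N L d / u ^ 2) ^ 2 * u, D, hd0, ?_, ?_⟩
  · have h1 : ((algebraMap N L d / u ^ 2) ^ 2 * u) ^ 2 =
        algebraMap N L d * (algebraMap N L d ^ 3 / u ^ 6) := by
      field_simp
    rw [h1, hd3, div_self (pow_ne_zero 6 hu), mul_one]
  · rw [hD]
    have h1 : 16 * d ^ 3 = B := by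
      rw [hd]
      field_simp
    ext <;> simp [tw, h1]

/-- A square of `N` in an extension of odd degree is a square. -/
theorem exists_sq_odd {N L : Type*} [Field N] [Field L] [Algebra N L] [FiniteDimensional N L]
    (hk : ¬ 2 ∣ Module.finrank N L) (t : N) (c : L) (hc : c ^ 2 = algebraMap N L t) :
    ∃ d : N, algebraMap N L d = c := by
  by_contra hcon
  have hirr : Irreducible (X ^ 2 - C t : N[X]) := by
    refine X_pow_sub_C_irreducible_of_prime Nat.prime_two fun b hb => hcon ?_
    have h1 : (c - algebraMap N L b) * (c + algebraMap N L b) = 0 := by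
      have h2 : algebraMap N L b ^ 2 = algebraMap N L t := by rw [← map_pow, hb]
      linear_combination hc - h2
    rcases mul_eq_zero.1 h1 with h | h
    · exact ⟨b, (sub_eq_zero.1 h).symm⟩
    · exact ⟨-b, by rw [map_neg]; linear_combination -h⟩
  have hmin : minpoly N c = X ^ 2 - C t := by
    refine (minpoly.eq_of_irreducible_of_monic hirr ?_ (monic_X_pow_sub_C t (by norm_num))).symm
    rw [map_sub, map_pow, aeval_X, aeval_C, hc, sub_self]
  have hdeg : (minpoly N c).natDegree = 2 := by rw [hmin, natDegree_X_pow_sub_C]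
  have hint : IsIntegral N c := Algebra.IsIntegral.isIntegral c
  apply hk
  rw [← hdeg, ← IntermediateField.adjoin.finrank hint]
  exact ⟨_, (Module.finrank_mul_finrank N (IntermediateField.adjoin N {c}) L).symm⟩

/-- The elements of `N` which are squares in `N(√-3)`. -/
theorem sq_cases {N F : Type*} [Field N] [CharZero N] [Field F] [Algebra N F] (z : F)
    (hz : z ^ 2 = -3) (hn : ∀ x : N, algebraMap N F x ≠ z)
    (hgen : ∀ t : F, ∃ a b : N, t = algebraMap N F a + algebraMap N F b * z)
    (x : F) (d : N) (hx : x ^ 2 = algebraMap N F d) :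
    (∃ y : N, d = y ^ 2) ∨ ∃ y : N, d = -3 * y ^ 2 := by
  obtain ⟨a, b, rfl⟩ := hgen x
  have h1 : algebraMap N F (d - a ^ 2 + 3 * b ^ 2) = algebraMap N F (2 * (a * b)) * z := by
    simp only [map_sub, map_add, map_mul, map_pow, map_ofNat]
    linear_combination -hx + (algebraMap N F b) ^ 2 * hz
  have h2 : 2 * (a * b) = 0 := by
    by_contra h3
    apply hn ((d - a ^ 2 + 3 * b ^ 2) / (2 * (a * b)))
    rw [map_div₀, h1, mul_comm, mul_div_assoc, div_self, mul_one]
    rw [Ne, map_eq_zero]
    exact h3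
  have h4 : d - a ^ 2 + 3 * b ^ 2 = 0 := by
    apply (algebraMap N F).injective
    rw [h1, h2, map_zero, zero_mul]
  rcases mul_eq_zero.1 h2 with h | h
  · exact absurd h two_ne_zero
  · rcases mul_eq_zero.1 h with h | h
    · right
      refine ⟨b, ?_⟩
      rw [h] at h4
      linear_combination h4
    · left
      refine ⟨a, ?_⟩
      rw [h] at h4
      linear_combination h4

end Pool.Agent.Lib.MP_1a91b9_ntT.DW
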