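import Pool.Agent.Lib.MP_1a91b9_ntT.DW.Ser

/-!
# The curves which become isomorphic to `E` inside an extension of `K` of degree prime to six
-/

set_option autoImplicit false

namespace Pool.Agent.Lib.MP_1a91b9_ntT.DW

open NumberField IsDedekindDomain WeierstrassCurve
open Pool.Agent.Lib.MP_1a91b9_ntT.S4 Pool.Agent.Lib.MP_1a91b9_ntT.S7
open Pool.Agent.Lib.MP_1a91b9_ntT.S8 Pool.Agent.Lib.MP_1a91b9_nt Pool.Agent.Lib.MP_1a91b9_ntT.TW

universe u

private theorem cls_repr (k : K) : ∃ a b : ℚ, k = algebraMap ℚ K a + algebraMap ℚ K b * om := by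
  have htop : Algebra.adjoin ℚ {om} = ⊤ := IsCyclotomicExtension.adjoin_primitive_root_eq_top om_spec
  have hk : k ∈ Algebra.adjoin ℚ {om} := by
    rw [htop]
    trivial
  induction hk using Algebra.adjoin_induction with
  | mem x hx =>
    rw [Set.mem_singleton_iff] at hx
    exact ⟨0, 1, by rw [hx, map_zero, map_one, zero_add, one_mul]⟩
  | algebraMap r => exact ⟨r, 0, by rw [map_zero, zero_mul, add_zero]⟩
  | add x y _ _ hx hy =>
    obtain ⟨a, b, rfl⟩ := hx
    obtain ⟨c, d, rfl⟩ := hy
    exact ⟨a + c, b + d, by rw [map_add, map_add]; ring⟩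
  | mul x y _ _ hx hy =>
    obtain ⟨a, b, rfl⟩ := hx
    obtain ⟨c, d, rfl⟩ := hy
    refine ⟨a * c - b * d, a * d + b * c - b * d, ?_⟩
    have h2 : om ^ 2 = -om - 1 := by linear_combination om_eq
    simp only [map_add, map_sub, map_mul]
    linear_combination (algebraMap ℚ K b * algebraMap ℚ K d) * h2

/-- A curve over `N` which becomes isomorphic to `E` over `L`, inside an extension of `K` of degree
prime to six, is isomorphic to `E` or to its twist by `-3`. -/
theorem twist_class (N L M : Type u) [Field N] [NumberField N] [Field L] [NumberField L]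
    [Field M] [NumberField M] [Algebra N L] [Algebra L M] [Algebra K M]
    (h2 : ¬ 2 ∣ Module.finrank K M) (h3 : ¬ 3 ∣ Module.finrank K M)
    (W : WeierstrassCurve N) (C : WeierstrassCurve.VariableChange L)
    (hC : C • (W.baseChange L) = E L) :
    (∃ D : WeierstrassCurve.VariableChange N, D • W = E N) ∨
      ∃ D : WeierstrassCurve.VariableChange N, D • W = tw (-3 : N) := by
  let algNM : Algebra N M := ((algebraMap L M).comp (algebraMap N L)).toAlgebra
  have htow : IsScalarTower N L M := IsScalarTower.of_algebraMap_eq' rfl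
  have hK2 : Module.finrank ℚ K = 2 := S4.u4_finrank
  have h3L : ¬ 3 ∣ Module.finrank N L := by
    intro h
    have h4 : 3 ∣ Module.finrank ℚ M := by
      have h5 := Module.finrank_mul_finrank ℚ N L
      have h6 := Module.finrank_mul_finrank ℚ L M
      rw [← h6, ← h5]
      exact Dvd.dvd.mul_right (Dvd.dvd.mul_left h _) _
    rw [← Module.finrank_mul_finrank ℚ K M, hK2] at h4
    rcases (Nat.prime_three.dvd_mul).1 h4 with h7 | h7
    · norm_num at h7
    · exact h3 h7
  obtain ⟨d, x, D, hd, hx, hD⟩ := exists_tw3 h3L W C hC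
  set z : M := 2 * algebraMap K M om + 1 with hzdef
  have hz : z ^ 2 = -3 := om_of_sqrt _ rfl
  let F : IntermediateField N M := quadIF N M z hz
  have hxM : (algebraMap L M x) ^ 2 = algebraMap N M d := by
    rw [← map_pow, hx]
    rfl
  -- `K` is contained in `F`
  have homF : algebraMap K M om ∈ F := by
    refine (mem_quadIF z hz _).2 ⟨-1 / 2, 1 / 2, ?_⟩
    rw [map_div₀, map_div₀, map_neg, map_one, map_ofNat, hzdef]
    ring
  have hdeg : ¬ 2 ∣ Module.finrank F M := by
    obtain ⟨φ, hφ⟩ : ∃ φ : K →+* F, ∀ t : K, ((φ t : F) : M) = algebraMap K M t := by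
      have hrange : ∀ t : K, algebraMap K M t ∈ F := by
        intro t
        obtain ⟨a, b, rfl⟩ := cls_repr t
        rw [map_add, map_mul]
        have e1 : algebraMap K M (algebraMap ℚ K a) = algebraMap N M (algebraMap ℚ N a) := by
          rw [eq_ratCast, eq_ratCast, map_ratCast, map_ratCast]
        have e2 : algebraMap K M (algebraMap ℚ K b) = algebraMap N M (algebraMap ℚ N b) := by
          rw [eq_ratCast, eq_ratCast, map_ratCast, map_ratCast]
        rw [e1, e2]
        exact F.add_mem (F.algebraMap_mem _) (F.mul_mem (F.algebraMap_mem _) homF)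
      exact ⟨(algebraMap K M).codRestrict F.toSubalgebra.toSubring hrange, fun t => rfl⟩
    let algKF : Algebra K F := φ.toAlgebra
    have ht : IsScalarTower K F M := IsScalarTower.of_algebraMap_eq fun t => (hφ t).symm
    intro h
    apply h2
    rw [← Module.finrank_mul_finrank K F M]
    exact Dvd.dvd.mul_left h _
  obtain ⟨y, hy⟩ := exists_sq_odd (N := F) (L := M) hdeg (algebraMap N F d) (algebraMap L M x) (by
    rw [hxM]
    rfl)
  have hy2 : y ^ 2 = algebraMap N F d := by
    apply (algebraMap F M).injective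
    rw [map_pow, hy, hxM]
    rfl
  have key : (∃ y : N, d = y ^ 2) ∨ ∃ y : N, d = -3 * y ^ 2 := by
    by_cases hzN : ∃ t : N, algebraMap N M t = z
    · left
      obtain ⟨t, ht⟩ := hzN
      obtain ⟨a, b, hab⟩ := (mem_quadIF z hz _).1 y.2
      refine ⟨a + b * t, ?_⟩
      apply (algebraMap N M).injective
      rw [map_pow, map_add, map_mul, ht, ← hab, ← hxM, ← hy]
      rfl
    · have hzF : z ∈ F := (mem_quadIF z hz _).2 ⟨0, 1, by simp⟩
      refine sq_cases (N := N) (F := F) ⟨z, hzF⟩ ?_ ?_ ?_ y d hy2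
      · apply Subtype.ext
        exact hz
      · intro t ht
        exact hzN ⟨t, congrArg Subtype.val ht⟩
      · intro t
        obtain ⟨a, b, hab⟩ := (mem_quadIF z hz _).1 t.2
        exact ⟨a, b, Subtype.ext hab⟩
  rcases key with ⟨y, rfl⟩ | ⟨y, rfl⟩
  · left
    have hy0 : y ≠ 0 := by
      rintro rfl
      exact hd (by rw [zero_pow two_ne_zero])
    obtain ⟨D', hD'⟩ := exists_iso_sq y hy0
    exact ⟨D' * D, by rw [mul_smul, hD, hD']⟩
  · right
    have hy0 : y ≠ 0 := by
      rintro rfl
      exact hd (by rw [zero_pow two_ne_zero, mul_zero])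
    obtain ⟨C', hC'⟩ := exists_tw_scale (-3 : N) y hy0
    exact ⟨C'⁻¹ * D, by rw [mul_smul, hD, ← hC', inv_smul_smul]⟩

end Pool.Agent.Lib.MP_1a91b9_ntT.DW
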