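import Pool.Agent.Lib.MP_1a91b9_ntT.DW.Alg

/-!
# The L-series of the curves over a field without `√-3` which become isomorphic to `E` over an
extension of degree prime to three in which `√-3` generates the quadratic part
-/

set_option autoImplicit false

namespace Pool.Agent.Lib.MP_1a91b9_ntT.DW

open NumberField IsDedekindDomain Polynomial WeierstrassCurve UniqueFactorizationMonoid
open Pool.Agent.Lib.MP_1a91b9_ntT.S4 Pool.Agent.Lib.MP_1a91b9_ntT.S7
open Pool.Agent.Lib.MP_1a91b9_ntT.S8 Pool.Agent.Lib.MP_1a91b9_nt Pool.Agent.Lib.MP_1a91b9_ntT.TW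

universe u

theorem chiI_const {F : Type*} [Field F] [NumberField F] (I : Ideal (𝓞 F)) (hI : I ≠ 0) :
    chiI (fun _ : HeightOneSpectrum (𝓞 F) => (1 : ℤ)) I = 1 := by
  induction I using UniqueFactorizationMonoid.induction_on_prime with
  | h₁ => exact absurd rfl hI
  | h₂ x hx => rw [isUnit_iff_eq_one.1 hx, chiI_one]
  | h₃ a p ha hp ih =>
    have h1 := chiI_place (fun _ : HeightOneSpectrum (𝓞 F) => (1 : ℤ))
      ⟨p, Ideal.isPrime_of_prime hp, hp.ne_zero⟩
    change chiI _ p = 1 at h1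
    rw [chiI_mul, h1, ih ha, one_mul]

theorem psibX_const {F : Type u} [Field F] [NumberField F] [Algebra K F] :
    psibX F (fun _ => (1 : ℤ)) = psibC F := by
  funext I
  by_cases hI : I = 0
  · rw [psibX, hI, psibC_zero, zero_mul]
  · rw [psibX, chiI_const I hI, Int.cast_one, mul_one]

/-- The local polynomials of a curve isomorphic to the twist by `-3`. -/
theorem locPoly_of_tw3 {N : Type u} [Field N] [NumberField N] (W : WeierstrassCurve N)
    (D : WeierstrassCurve.VariableChange N) (hD : D • W = tw (-3 : N)) (hN : NoCube3 N)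
    (v : HeightOneSpectrum (𝓞 N)) : locPoly W v = locPoly (tw (-3 : N)) v := by
  have hm3 : (-3 : N) ≠ 0 := by norm_num
  by_cases h3 : (3 : 𝓞 N) ∈ v.asIdeal
  · rw [locPoly_tw_three (-3 : N) hm3 hN v h3, locPoly_iso_three W (-3) hm3 D hD hN v h3]
  obtain ⟨C, hC⟩ := exists_twm (two_ne_zero : (2 : N) ≠ 0) 1 (-1)
  have e1 : ((1 : N) ^ 2 + 4 * (-1)) = -3 := by norm_num
  rw [e1] at hC
  have e2 : twm (1 : N) (-1) = (twm (1 : 𝓞 N) (-1)).map (algebraMap (𝓞 N) N) := by
    rw [twm_map, map_neg, map_one]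
  have hΔ : (twm (1 : 𝓞 N) (-1)).Δ ∉ v.asIdeal := by
    rw [twm_Δ]
    intro hmem
    apply h3
    have e : -(3 ^ 3 * ((1 : 𝓞 N) ^ 2 + 4 * (-1)) ^ 6) = -(3 ^ 9) := by norm_num
    rw [e] at hmem
    exact v.isPrime.mem_of_pow_mem 9 (by simpa using v.asIdeal.neg_mem hmem)
  rw [lt_locPoly W (C * D) (twm (1 : 𝓞 N) (-1)) (by rw [mul_smul, hD, hC, e2]) v hΔ,
    lt_locPoly (tw (-3 : N)) C (twm (1 : 𝓞 N) (-1)) (by rw [hC, e2]) v hΔ]

/-- The L-series of the twist by `-3` over a field without `√-3`. -/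
theorem LSeries_tw3 {N F : Type u} [Field N] [NumberField N] [Field F] [NumberField F]
    [Algebra N F] [Algebra K F] (hL : Module.finrank N F = 2)
    (hn : ∀ x : N, algebraMap N F x ≠ algebraMap K F om) (h : NoCube3 N) (s : ℂ)
    (hs : 2 < s.re) : (tw (-3 : N)).LSeries s = Lf (psibC F) s := by
  have hint : _root_.IsIntegral ℤ (2 * algebraMap K F om + 1) := by
    have h1 : _root_.IsIntegral ℤ (algebraMap K F om) :=
      S3.om_integral.map ((algebraMap K F).toIntAlgHom)
    have h2 : _root_.IsIntegral ℤ (2 : F) := by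
      have h3 := isIntegral_algebraMap (R := ℤ) (A := F) (x := 2)
      rwa [map_ofNat] at h3
    exact (h2.mul h1).add isIntegral_one
  have hsq : (2 * algebraMap K F om + 1) ^ 2 = -3 := om_of_sqrt _ rfl
  let e : 𝓞 F := ⟨2 * algebraMap K F om + 1, hint⟩
  have he : (algebraMap (𝓞 N) (𝓞 F) 1) ^ 2 + 4 * (algebraMap (𝓞 N) (𝓞 F) (-1)) = e ^ 2 := by
    rw [map_neg, map_one]
    apply RingOfIntegers.ext
    change ((1 : F) ^ 2 + 4 * (-1)) = (2 * algebraMap K F om + 1) ^ 2
    rw [hsq]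
    norm_num
  have hχ := twChi_one _ _ e he
  have hodd : IsCoprime ((1 : 𝓞 N) ^ 2 + 4 * (-1)) 2 := ⟨1, 2, by norm_num⟩
  have h1 := LSeries_tw_N hL hn h hχ hodd s hs
  have e1 : (((1 : 𝓞 N) ^ 2 + 4 * (-1) : 𝓞 N) : N) = -3 := by
    have e2 : ((1 : 𝓞 N) ^ 2 + 4 * (-1) : 𝓞 N) = -3 := by norm_num
    rw [e2]
    change algebraMap (𝓞 N) N (-3) = -3
    rw [map_neg, map_ofNat]
  rw [e1, psibX_const] at h1
  exact h1

/-- The L-series of a curve isomorphic to `E`. -/
theorem LSeries_iso {N : Type u} [Field N] [NumberField N] (h : NoCube3 N)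
    (W : WeierstrassCurve N) (D : WeierstrassCurve.VariableChange N) (hD : D • W = E N) :
    W.LSeries = (E N).LSeries := by
  obtain ⟨D', hD'⟩ := exists_iso_sq (1 : N) one_ne_zero
  rw [one_pow] at hD'
  refine LSeries_congr_loc W (E N) fun v => ?_
  by_cases h3 : (3 : 𝓞 N) ∈ v.asIdeal
  · rw [E_eq, locPoly_fermatCubic_three v h3 (h v h3),
      locPoly_iso_three W 1 one_ne_zero (D'⁻¹ * D)
        (by rw [mul_smul, hD, ← hD', inv_smul_smul]) h v h3]
  · exact locPoly_of_iso W D hD v h3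

/-- The half plane `3/2 < Re s`, for a curve isomorphic to `E` or to its twist by `-3`. -/
theorem half_tw3 {N F : Type u} [Field N] [NumberField N] [Field F] [NumberField F]
    [Algebra N F] [Algebra K F] (hL : Module.finrank N F = 2)
    (hn : ∀ x : N, algebraMap N F x ≠ algebraMap K F om) (h : NoCube3 N)
    (W : WeierstrassCurve N) (D : WeierstrassCurve.VariableChange N)
    (hD : D • W = tw (-3 : N)) (s : ℂ) (hs : 3 / 2 < s.re) :
    W.LSeries s = Lf (psibC F) s := by
  have hq := hasSum_coefI_of_le (psibC F) (psibC_one F) (psibC_mul F) norm_psibC_le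
  have hcong : W.LSeries = (tw (-3 : N)).LSeries :=
    LSeries_congr_loc W _ fun v => locPoly_of_tw3 W D hD h v
  have h1 := half_plane W (coefI (psibC F)) (fun s hs => (hq s hs).LSeriesSummable)
    (fun s hs => by
      rw [hcong, LSeries_tw3 hL hn h s hs, (hq s (by linarith)).LSeries_eq]) s hs
  rw [h1.2, (hq s hs).LSeries_eq]

end Pool.Agent.Lib.MP_1a91b9_ntT.DW
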